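import Pool.Agent.Helper35.HC.StF

/-!
# Project HC (MP_925021_gt), module LSN: the limit is a round sphere (all dimensions)
-/

set_option autoImplicit false

namespace Helper24.HC

open Helper35.HC Helper35.HSF Helper35.MS Helper35.PI Helper35.PI2 Helper32.CL
open scoped ContDiff Manifold Topology ENNReal BigOperators
open MeasureTheory Set Filter

/-- LSN. The limit is a round sphere. -/
theorem hLSN : StLSN := by
  intro m N M _ _ _ G hG hyp
  have h1 : ∀ n : ℕ, ∃ L : EE (m + 1) →ₗᵢ[ℝ] EE N,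
      (∀ q, ∃ y : EE (m + 1), ‖y‖ = 1 ∧ ‖G q - L y‖ ≤ 2 * (1 / ((n : ℝ) + 1))) ∧
      ∀ y : EE (m + 1), ‖y‖ = 1 → ∃ q, ‖G q - L y‖ ≤ 2 * (1 / ((n : ℝ) + 1)) := by
    intro n
    obtain ⟨Φ, L, h1, h2, h3⟩ := hyp (1 / ((n : ℝ) + 1)) (by positivity)
    have hG2 : ∀ (q : M) (y : EE (m + 1)), ‖G q - L y‖ ≤ ‖Φ q - L y‖ + ‖Φ q - G q‖ := by
      intro q y
      have e : G q - L y = (Φ q - L y) - (Φ q - G q) := by abel
      rw [e]
      exact norm_sub_le _ _
    refine ⟨L, ?_, ?_⟩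
    · intro q
      obtain ⟨y, hy, hy2⟩ := h2 q
      refine ⟨y, hy, ?_⟩
      have := h1 q
      have := hG2 q y
      linarith
    · intro y hy
      obtain ⟨q, hq⟩ := h3 y hy
      refine ⟨q, ?_⟩
      have := h1 q
      have := hG2 q y
      linarith
  choose L hL1 hL2 using h1
  obtain ⟨A, -, φ, hφ, hlim⟩ := (isCompact_closedBall (0 : EE (m + 1) →L[ℝ] EE N) 1).tendsto_subseq
    (x := fun n => (L n).toContinuousLinearMap) (fun n => by
      rw [mem_closedBall_zero_iff]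
      exact (L n).norm_toContinuousLinearMap_le)
  have hAy : ∀ y : EE (m + 1), Tendsto (fun n => L (φ n) y) atTop (𝓝 (A y)) := by
    intro y
    have h2 := ((ContinuousLinearMap.apply ℝ (EE N) y).continuous.tendsto A).comp hlim
    exact h2
  have hnorm : ∀ y : EE (m + 1), ‖A y‖ = ‖y‖ := by
    intro y
    have h2 := (hAy y).norm
    have h3 : Tendsto (fun n => ‖L (φ n) y‖) atTop (𝓝 ‖y‖) := by
      have : (fun n => ‖L (φ n) y‖) = fun _ => ‖y‖ := by
        funext n
        exact (L (φ n)).norm_map y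
      rw [this]
      exact tendsto_const_nhds
    exact tendsto_nhds_unique h2 h3
  set B : EE (m + 1) →ₗᵢ[ℝ] EE N := ⟨A.toLinearMap, hnorm⟩ with hB
  have hBA : ∀ y, B y = A y := fun y => rfl
  -- the distance goes to zero uniformly
  have hd : ∀ ε : ℝ, 0 < ε → ∃ n : ℕ, ∀ y : EE (m + 1), ‖y‖ = 1 →
      ‖L (φ n) y - B y‖ + 2 * (1 / ((φ n : ℝ) + 1)) < ε := by
    intro ε hε
    have h2 : Tendsto (fun n => ‖(L (φ n)).toContinuousLinearMap - A‖) atTop (𝓝 0) := by
      have := (hlim.sub_const A).norm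
      rwa [sub_self, norm_zero] at this
    have h3 : Tendsto (fun n => 2 * (1 / ((φ n : ℝ) + 1))) atTop (𝓝 0) := by
      have := (tendsto_one_div_add_atTop_nhds_zero_nat (𝕜 := ℝ)).comp hφ.tendsto_atTop
      have := this.const_mul 2
      rwa [mul_zero] at this
    have h4 := h2.add h3
    rw [add_zero] at h4
    obtain ⟨n, hn⟩ := (h4.eventually (gt_mem_nhds hε)).exists
    refine ⟨n, fun y hy => ?_⟩
    have h5 : ‖L (φ n) y - B y‖ ≤ ‖(L (φ n)).toContinuousLinearMap - A‖ * ‖y‖ :=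
      ((L (φ n)).toContinuousLinearMap - A).le_opNorm y
    rw [hy, mul_one] at h5
    linarith
  refine ⟨B, ?_⟩
  have hc1 : IsClosed (B '' Metric.sphere (0 : EE (m + 1)) 1) :=
    ((isCompact_sphere (0 : EE (m + 1)) 1).image B.continuous).isClosed
  have hc2 : IsClosed (range G) := (isCompact_range hG).isClosed
  apply Subset.antisymm
  · rintro _ ⟨q, rfl⟩
    rw [← hc1.closure_eq, Metric.mem_closure_iff]
    intro ε hε
    obtain ⟨n, hn⟩ := hd ε hε
    obtain ⟨y, hy, hy2⟩ := hL1 (φ n) q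
    refine ⟨B y, ⟨y, by simpa using hy, rfl⟩, ?_⟩
    have h2 := hn y hy
    rw [dist_eq_norm]
    have e : G q - B y = (G q - L (φ n) y) + (L (φ n) y - B y) := by abel
    rw [e]
    refine lt_of_le_of_lt (norm_add_le _ _) ?_
    linarith
  · rintro _ ⟨y, hy, rfl⟩
    rw [← hc2.closure_eq, Metric.mem_closure_iff]
    intro ε hε
    have hy1 : ‖y‖ = 1 := by simpa using hy
    obtain ⟨n, hn⟩ := hd ε hε
    obtain ⟨q, hq⟩ := hL2 (φ n) y hy1
    refine ⟨G q, ⟨q, rfl⟩, ?_⟩
    have h2 := hn y hy1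
    rw [dist_comm, dist_eq_norm]
    have e : G q - B y = (G q - L (φ n) y) + (L (φ n) y - B y) := by abel
    rw [e]
    refine lt_of_le_of_lt (norm_add_le _ _) ?_
    linarith

end Helper24.HC
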